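import Pool.Agent.Helper65.HC.Goals

/-! HC: TREE, the tree computes the values of the gates. -/

namespace Pool.Agent.Helper79.HC

open Pool.Agent.Helper65.LinSpace Pool.Agent.Helper78.Mpc Pool.Agent.Helper65.HC

variable {m : Mach}

/-- The states of the gate `i`. -/
def scv (m : Mach) (i n : ℕ) : ℕ := nrec m.st (fun j q => m.step i j q (m.val j)) n

theorem nrec_lt {b g : ℕ} {k : ℕ → ℕ → ℕ} (hg : g < b) (hk : ∀ i q, k i q < b) (n : ℕ) :
    nrec g k n < b := by
  cases n with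
  | zero => exact hg
  | succ n => exact hk _ _

theorem qpos (m : Mach) : 0 < 2 ^ m.σ := by positivity

theorem val_lt (hm : m.Ok) (i : ℕ) : m.val i < 2 ^ m.σ := hm.hout _ _

theorem scv_lt (hm : m.Ok) (i n : ℕ) : scv m i n < 2 ^ m.σ :=
  nrec_lt hm.hst (fun _ _ => hm.hstep _ _ _ _) n

theorem W_eq (m : Mach) (n : ℕ) : m.W n = tab (2 ^ m.σ) n m.val := by
  induction n with
  | zero => rfl
  | succ n ih =>
    rw [tab_succ, ← ih, Mach.W, Mach.val, pow_mul, mul_comm (m.out _ _)]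

theorem dig_W (hm : m.Ok) {n i : ℕ} (hi : i < n) : dig (2 ^ m.σ) (m.W n) i = m.val i := by
  rw [W_eq, dig_tab (fun j _ => val_lt hm j) hi]

theorem sc_eq (hm : m.Ok) (i : ℕ) {j n : ℕ} (h : n ≤ j) : m.sc i (m.W j) n = scv m i n := by
  induction n with
  | zero => rfl
  | succ n ih =>
    have h1 := ih (by omega)
    rw [Mach.sc, scv] at h1 ⊢
    rw [nrec_succ, nrec_succ, h1, dig_W hm (by omega)]

theorem val_eq (hm : m.Ok) (i : ℕ) : m.val i = m.out i (scv m i i) := by
  rw [Mach.val, sc_eq hm i le_rfl]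

theorem nv_le (hm : m.Ok) {k j : ℕ} (h : j ≤ k) :
    m.nv k j = tab (2 ^ m.σ) m.B fun e => scv m (k * m.B + e) (j * m.B) := by
  rw [Mach.nv, if_pos h]
  exact tab_congr fun e _ => sc_eq hm _ le_rfl

theorem nv_succ (k : ℕ) : m.nv k (k + 1) = tab (2 ^ m.σ) m.B fun e => m.val (k * m.B + e) := by
  rw [Mach.nv, if_neg (by omega)]

/-- continuation of the states -/
theorem cont (_hm : m.Ok) (i a : ℕ) (V : ℕ) {n : ℕ}
    (hV : ∀ t < n, dig (2 ^ m.σ) V t = m.val (a + t)) {t : ℕ} (ht : t ≤ n) :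
    nrec (scv m i a) (fun t q => m.step i (a + t) q (dig (2 ^ m.σ) V t)) t = scv m i (a + t) := by
  induction t with
  | zero => rfl
  | succ t ih =>
    rw [nrec_succ, ih (by omega), hV t (by omega)]
    rfl

theorem adv_eq (hm : m.Ok) {k j : ℕ} (h : j + 1 ≤ k) :
    m.adv k j (m.nv k j) (m.nv j (j + 1)) = m.nv k (j + 1) := by
  rw [nv_le hm (by omega : j ≤ k), nv_le hm h, nv_succ, Mach.adv]
  refine tab_congr fun e he => ?_
  rw [dig_tab (fun _ _ => scv_lt hm _ _) he,
    cont hm (k * m.B + e) (j * m.B) _ (n := m.B)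
      (fun t ht => dig_tab (fun _ _ => val_lt hm _) ht) le_rfl]
  congr 1
  ring

theorem fin_eq (hm : m.Ok) (k : ℕ) {n : ℕ} (h : n ≤ m.B) :
    m.fin k (m.nv k k) n = tab (2 ^ m.σ) n fun e => m.val (k * m.B + e) := by
  induction n with
  | zero => rfl
  | succ n ih =>
    have h1 := ih (by omega)
    rw [Mach.fin] at h1 ⊢
    rw [nrec_succ, h1, tab_succ, pow_mul]
    congr 1
    have h2 : dig (2 ^ m.σ) (m.nv k k) n = scv m (k * m.B + n) (k * m.B) := by
      rw [nv_le hm le_rfl, dig_tab (fun _ _ => scv_lt hm _ _) (by omega)]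
    rw [h2, cont hm (k * m.B + n) (k * m.B) _ (n := n)
      (fun t ht => dig_tab (fun _ _ => val_lt hm _) ht) le_rfl, ← val_eq hm, mul_comm]

theorem fin_lt (hm : m.Ok) (k P n : ℕ) : m.fin k P n < (2 ^ m.σ) ^ n := by
  induction n with
  | zero => exact Nat.one_pos
  | succ n ih =>
    rw [Mach.fin] at ih ⊢
    rw [nrec_succ, pow_succ, pow_mul]
    have h1 : ∀ x, m.out (k * m.B + n) x < 2 ^ m.σ := fun x => hm.hout _ _
    set x := m.out (k * m.B + n) _ with hx
    have h2 : x + 1 ≤ 2 ^ m.σ := h1 _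
    set a := (2 ^ m.σ) ^ n with ha
    calc _ < a + a * x := Nat.add_lt_add_right ih _
      _ = a * (x + 1) := by ring
      _ ≤ a * 2 ^ m.σ := Nat.mul_le_mul_left _ h2

theorem nF_lt (hm : m.Ok) (u V : ℕ) : m.nF u V < 2 ^ (m.σ * m.B) := by
  rw [pow_mul, Mach.nF, ifz, ifz]
  split_ifs
  · exact tab_lt fun _ _ => hm.hst
  · exact fin_lt hm _ _ _
  · exact tab_lt fun e _ => nrec_lt (dig_lt (qpos m) _ _) (fun _ _ => hm.hstep _ _ _ _) _

theorem ini_lt (hm : m.Ok) : m.ini < 2 ^ (m.σ * m.B) := by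
  rw [pow_mul]
  exact tab_lt fun _ _ => hm.hst

theorem main (hm : m.Ok) (h : ℕ) : ∀ k j, k < m.K → j ≤ k + 1 →
    2 * j ≤ h + (if j = k + 1 then 1 else 0) →
    gval 2 (m.σ * m.B) m.nF (fun _ => m.ini) m.ch h (k * (m.K + 2) + j) = m.nv k j := by
  have hini : ∀ k, m.ini = m.nv k 0 := by
    intro k
    rw [nv_le hm (Nat.zero_le k), Mach.ini]
    refine tab_congr fun e _ => ?_
    rw [zero_mul]
    rfl
  have hlt := gval_lt (D := 2) (L := m.σ * m.B) (F := m.nF) (leaf := fun _ => m.ini) (ch := m.ch)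
    (nF_lt hm) (fun _ => ini_lt hm)
  induction h with
  | zero =>
    intro k j hk hj hh
    have hj0 : j = 0 := by
      split_ifs at hh <;> omega
    subst hj0
    exact hini k
  | succ h ih =>
    intro k j hk hj hh
    have hdiv : (k * (m.K + 2) + j) / (m.K + 2) = k := by
      rw [mul_comm, Nat.mul_add_div (by omega), Nat.div_eq_of_lt (by omega), add_zero]
    have hmod : (k * (m.K + 2) + j) % (m.K + 2) = j := by
      rw [mul_comm, Nat.mul_add_mod, Nat.mod_eq_of_lt (by omega)]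
    rw [gval, Mach.nF, hdiv, hmod]
    rcases Nat.eq_zero_or_pos j with rfl | hjp
    · rw [ifz_zero]
      exact hini k
    · obtain ⟨j, rfl⟩ : ∃ j', j = j' + 1 := ⟨j - 1, by omega⟩
      rw [ifz_ne (by omega)]
      have hd0 : dig (2 ^ (m.σ * m.B)) (tab (2 ^ (m.σ * m.B)) 2 fun i =>
          gval 2 (m.σ * m.B) m.nF (fun _ => m.ini) m.ch h (m.ch (k * (m.K + 2) + (j + 1)) i)) 0 =
          gval 2 (m.σ * m.B) m.nF (fun _ => m.ini) m.ch h (k * (m.K + 2) + j) := by
        rw [dig_tab (fun i _ => hlt _ _) (by omega)]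
        congr 1
        rw [Mach.ch, hmod, ifz_ne (by omega), ifz_zero]
        omega
      have hd1 : dig (2 ^ (m.σ * m.B)) (tab (2 ^ (m.σ * m.B)) 2 fun i =>
          gval 2 (m.σ * m.B) m.nF (fun _ => m.ini) m.ch h (m.ch (k * (m.K + 2) + (j + 1)) i)) 1 =
          gval 2 (m.σ * m.B) m.nF (fun _ => m.ini) m.ch h (j * (m.K + 2) + (j + 1)) := by
        rw [dig_tab (fun i _ => hlt _ _) (by omega)]
        congr 1
        rw [Mach.ch, hmod, ifz_ne (by omega), ifz_ne (by omega), Nat.add_sub_cancel]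
      rw [hd0, hd1]
      rcases Nat.lt_or_ge k (j + 1) with hc | hc
      · have hkj : j = k := by omega
        subst hkj
        rw [if_pos rfl] at hh
        have e1 : le01 (j + 1) j = 0 := if_neg (by omega)
        rw [e1, ifz_zero, ih j j hk (by omega) (by split_ifs <;> omega), fin_eq hm j le_rfl,
          nv_succ]
      · rw [if_neg (by omega)] at hh
        have e1 : le01 (j + 1) k = 1 := if_pos hc
        rw [e1, ifz_ne one_ne_zero, ih k j hk (by omega) (by split_ifs <;> omega),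
          ih j (j + 1) (by omega) le_rfl (by rw [if_pos rfl]; omega), Nat.add_sub_cancel,
          adv_eq hm hc]

theorem tree : TREE_stmt := by
  intro m hm i hi
  have hB := hm.hB
  have hk : i / m.B < m.K := Nat.div_lt_of_lt_mul (by rwa [mul_comm])
  rw [Mach.sim, main hm (2 * m.K) (i / m.B) (i / m.B + 1) hk le_rfl (by rw [if_pos rfl]; omega),
    nv_succ, dig_tab (fun _ _ => val_lt hm _) (Nat.mod_lt _ hB)]
  congr 1
  rw [mul_comm]
  exact Nat.div_add_mod i m.B

end Pool.Agent.Helper79.HC
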